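import Pool.Agent.H68.DS.Semi

/-!
# MP_9bbc25_al: which finite sets are delta sets of numerical semigroups

A finite set `D` of natural numbers is the delta set of a numerical semigroup if and only if all its
elements are positive and `D` is empty or `min D = gcd D` (some element of `D` divides all of `D`).
The case `1 ∈ D` is Q1.
-/

set_option autoImplicit false

namespace Pool.Agent.Results.MP_9bbc25_al.Classification

open Pool.Agent.H68.DS

/-- An atom (member of the minimal generating set) of the semigroup `S`. -/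
def Atom (S : AddSubmonoid ℕ) (a : ℕ) : Prop :=
  a ∈ S ∧ a ≠ 0 ∧ ∀ b ∈ S, ∀ c ∈ S, b + c = a → b = 0 ∨ c = 0

/-- `x` has a factorization of length `j` into atoms of `S`. -/
def HasLen (S : AddSubmonoid ℕ) (x j : ℕ) : Prop :=
  ∃ s : Multiset ℕ, (∀ a ∈ s, Atom S a) ∧ s.sum = x ∧ Multiset.card s = j

/-- The delta set of `S`: the differences of consecutive factorization lengths of elements. -/
def Delta (S : AddSubmonoid ℕ) : Set ℕ :=
  {d | 0 < d ∧ ∃ x ∈ S, ∃ k, HasLen S x k ∧ HasLen S x (k + d) ∧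
    ∀ j, k < j → j < k + d → ¬ HasLen S x j}

/-- A numerical semigroup: a submonoid of the natural numbers with finite complement. -/
def IsNumerical (S : AddSubmonoid ℕ) : Prop := ((S : Set ℕ)ᶜ).Finite

lemma delta_eq (S : AddSubmonoid ℕ) : Delta S = deltaSet S := rfl

lemma delta_top : Delta ⊤ = ∅ := by
  have atom : ∀ a, Atom ⊤ a → a = 1 := by
    rintro a ⟨-, h0, h1⟩
    by_contra hne
    have := h1 1 trivial (a - 1) trivial (by omega)
    omega
  have len : ∀ x j, HasLen ⊤ x j → x = j := by
    rintro x j ⟨s, s1, rfl, rfl⟩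
    rw [Multiset.eq_replicate_card.2 fun a ha => atom a (s1 a ha)]
    simp
  ext d
  simp only [Set.mem_empty_iff_false, iff_false]
  rintro ⟨h0, x, -, k, h1, h2, -⟩
  have := len _ _ h1
  have := len _ _ h2
  omega

/-- **Complete classification of the finite delta sets of numerical semigroups.**  A finite set `D`
is `Δ(S)` for a numerical semigroup `S` if and only if all elements of `D` are positive and either
`D` is empty or some element of `D` divides all elements of `D` (that is, `min D = gcd D`). -/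
theorem result (D : Finset ℕ) :
    (∃ S : AddSubmonoid ℕ, IsNumerical S ∧ Delta S = (D : Set ℕ)) ↔
      (∀ d ∈ D, 0 < d) ∧ (D = ∅ ∨ ∃ g ∈ D, ∀ d ∈ D, g ∣ d) := by
  constructor
  · rintro ⟨S, -, hS⟩
    refine ⟨fun d hd => ?_, ?_⟩
    · have : d ∈ Delta S := by rw [hS]; exact hd
      exact this.1
    · rcases D.eq_empty_or_nonempty with h | h
      · exact Or.inl h
      · right
        obtain ⟨g, hg, hall⟩ := min_dvd S (by
          rw [← delta_eq, hS]; exact_mod_cast h)
        rw [← delta_eq, hS] at hg hall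
        exact ⟨g, by exact_mod_cast hg, fun d hd => hall d (by exact_mod_cast hd)⟩
  · rintro ⟨hpos, rfl | ⟨g, hgD, hall⟩⟩
    · exact ⟨⊤, by simp [IsNumerical], by rw [delta_top]; simp⟩
    have hg : 0 < g := hpos g hgD
    by_cases hone : ∀ d ∈ D, d = g
    · refine ⟨S2 g, cofin2 g, ?_⟩
      rw [delta_eq, delta2 hg]
      ext d
      simp only [Set.mem_singleton_iff, Finset.mem_coe]
      exact ⟨fun h => h ▸ hgD, hone d⟩
    push Not at hone
    obtain ⟨d0, hd0, hd0g⟩ := hone
    set D' := D.image (fun d => d / g) with hD'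
    have hmem : ∀ e, e ∈ D' ↔ g * e ∈ D := by
      intro e
      rw [hD', Finset.mem_image]
      constructor
      · rintro ⟨d, hd, rfl⟩
        rw [Nat.mul_div_cancel' (hall d hd)]; exact hd
      · intro h
        exact ⟨_, h, Nat.mul_div_cancel_left e hg⟩
    have hpos' : ∀ e ∈ D', 0 < e := by
      intro e he
      have := hpos _ ((hmem e).1 he)
      exact Nat.pos_of_mul_pos_left this
    have h1 : 1 ∈ D' := (hmem 1).2 (by rw [mul_one]; exact hgD)
    have hle : ∀ d ∈ D', d ≤ D'.max' ⟨1, h1⟩ := fun d hd => D'.le_max' d hd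
    have h2 : 2 ≤ D'.max' ⟨1, h1⟩ := by
      obtain ⟨q, hq⟩ := hall d0 hd0
      have hqm : q ∈ D' := (hmem q).2 (by rw [← hq]; exact hd0)
      have h3 := hle q hqm
      have h4 := hpos' q hqm
      have h5 : q ≠ 1 := by rintro rfl; exact hd0g (by rw [hq, mul_one])
      omega
    obtain ⟨R, P, Q, H⟩ := exists_data D' _ hpos' hle h1 (D'.max'_mem _) h2
    have hP := H.Ppos
    have hQ := H.Qpos
    obtain ⟨N, hN⟩ := Int.eq_ofNat_of_zero_le
      (show 0 ≤ (P + Q + (D'.max' ⟨1, h1⟩ : ℕ) + 5) * (P + Q) by positivity)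
    have hg' : (1 : ℤ) ≤ g := by exact_mod_cast hg
    have hN0 : (0 : ℤ) ≤ N := by positivity
    set n : ℕ := g * N + 1 with hndef
    have hncast : (n : ℤ) = g * N + 1 := by rw [hndef]; push_cast; ring
    have hn1 : (P + Q + (D'.max' ⟨1, h1⟩ : ℕ) + 5) * (P + Q) ≤ (n : ℤ) := by
      rw [hN, hncast]
      have : 1 * (N : ℤ) ≤ g * N := mul_le_mul_of_nonneg_right hg' hN0
      push_cast
      linarith
    have hn2 : (g : ℤ) * (P + Q) < n := by
      rw [hncast]
      have h3 : P + Q ≤ N := by
        rw [show (N : ℤ) = _ from hN.symm]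
        have h4 : (0 : ℤ) ≤ (D'.max' ⟨1, h1⟩ : ℕ) := by positivity
        nlinarith
      have : (g : ℤ) * (P + Q) ≤ g * N := mul_le_mul_of_nonneg_left h3 (by omega)
      linarith
    have hcop : IsCoprime (g : ℤ) n := ⟨-N, 1, by rw [hncast]; ring⟩
    refine ⟨SG R g n, cofin H (by omega) hcop, ?_⟩
    rw [delta_eq]
    ext d
    simp only [deltaSet, len_iff H hg hn2, Set.mem_setOf_eq, Finset.mem_coe]
    constructor
    · rintro ⟨h0, x, -, k, a, b, c⟩
      obtain ⟨e, he, rfl⟩ := H.gap_mem hg hn1 hcop h0 a b c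
      exact (hmem e).1 he
    · intro hd
      obtain ⟨e, rfl⟩ := hall d hd
      obtain ⟨x, j, a, b, c⟩ := H.gap_att hg hn1 hcop ((hmem e).2 hd)
      exact ⟨hpos _ hd, x, ⟨j, a⟩, j, a, b, c⟩

end Pool.Agent.Results.MP_9bbc25_al.Classification
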